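import Mathlib

set_option autoImplicit false

namespace Pool.Agent.Results.MP_d888c7_an.NoBV

open Set MeasureTheory Finset

/-- The class `Ω`. -/
def InOmega (ω : ℝ → ℝ) : Prop :=
  ContinuousOn ω (Set.Icc 0 1) ∧ (∀ x ∈ Set.Icc (0 : ℝ) 1, 0 < ω x) ∧ ω 0 = 1 ∧
    IntegrableOn ω (Set.Icc 0 1) ∧ IntegrableOn (fun x => |1 - ω x| * x⁻¹) (Set.Ioc 0 1)

/-- The sequence `λ_n`. -/
noncomputable def lam (ω₁ ω₂ : ℝ → ℝ) (n : ℕ) : ℝ :=
  if n = 0 then 1
  else (∫ x in (0 : ℝ)..1, ω₁ x * x ^ (n - 1)) * (∫ x in (0 : ℝ)..1, ω₂ x * x ^ (n - 1))⁻¹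

/-- `I` is the Riemann–Stieltjes integral of `f` against `β` over `[0,1]`: the limit of the
Riemann–Stieltjes sums over tagged partitions as the mesh tends to `0`. -/
def HasRS (f β : ℝ → ℝ) (I : ℝ) : Prop :=
  ∀ ε > 0, ∃ δ > 0, ∀ (m : ℕ) (x ξ : ℕ → ℝ), x 0 = 0 → x m = 1 →
    (∀ i < m, x i ≤ ξ i ∧ ξ i ≤ x (i + 1) ∧ x (i + 1) - x i < δ) →
    |∑ i ∈ range m, f (ξ i) * (β (x (i + 1)) - β (x i)) - I| < ε

noncomputable def w (d : ℝ) (x : ℝ) : ℝ := d + (1 - d) * (1 - x) ^ 3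

lemma w_omega {d : ℝ} (h0 : 0 < d) (h1 : d ≤ 1) : InOmega (w d) := by
  have hc : Continuous (w d) := by unfold w; fun_prop
  refine ⟨hc.continuousOn, fun x hx => ?_, by simp [w], hc.integrableOn_Icc, ?_⟩
  · have : 0 ≤ (1 - d) * (1 - x) ^ 3 := mul_nonneg (by linarith) (pow_nonneg (by linarith [hx.2]) _)
    unfold w; linarith
  · have : IntegrableOn (fun x : ℝ => |(1 - d) * (3 - 3 * x + x ^ 2)|) (Set.Ioc 0 1) :=
      (Continuous.integrableOn_Icc (by fun_prop)).mono_set Set.Ioc_subset_Icc_self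
    refine this.congr_fun (fun x hx => ?_) measurableSet_Ioc
    have hx0 : 0 < x := hx.1
    have : 1 - w d x = (1 - d) * (3 - 3 * x + x ^ 2) * x := by unfold w; ring
    simp only [this, abs_mul, abs_of_pos hx0]
    field_simp

lemma w_anti {d : ℝ} (h1 : d ≤ 1) : AntitoneOn (w d) (Set.Icc 0 1) := by
  intro x _ y hy hxy
  have : (1 - y) ^ 3 ≤ (1 - x) ^ 3 := pow_le_pow_left₀ (by linarith [hy.2]) (by linarith) 3
  unfold w
  nlinarith

lemma ratio_anti : AntitoneOn (fun x => w (1 / 72) x / w (1 / 36) x) (Set.Icc 0 1) := by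
  intro x hx y hy hxy
  have h1 : (1 - y) ^ 3 ≤ (1 - x) ^ 3 := pow_le_pow_left₀ (by linarith [hy.2]) (by linarith) 3
  have h2 := (w_omega (d := 1 / 36) (by norm_num) (by norm_num)).2.1
  simp only
  rw [div_le_div_iff₀ (h2 y hy) (h2 x hx)]
  unfold w
  nlinarith

noncomputable def D (n : ℕ) : ℝ := (n + 1) * (n + 2) * (n + 3)

lemma D_pos (n : ℕ) : 0 < D n := by unfold D; positivity

lemma int_w (d : ℝ) (k : ℕ) :
    ∫ x in (0 : ℝ)..1, w d x * x ^ k = (d + (1 - d) * 6 / D (k + 1)) / (k + 1) := by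
  have : ∀ x : ℝ, w d x * x ^ k =
      x ^ k - (1 - d) * 3 * x ^ (k + 1) + (1 - d) * 3 * x ^ (k + 2) - (1 - d) * x ^ (k + 3) := by
    intro x; unfold w; ring
  simp only [this]
  rw [intervalIntegral.integral_sub, intervalIntegral.integral_add, intervalIntegral.integral_sub,
    intervalIntegral.integral_const_mul, intervalIntegral.integral_const_mul,
    intervalIntegral.integral_const_mul]
  · simp only [integral_pow, D]
    push_cast
    field_simp
    ring
  all_goals exact Continuous.intervalIntegrable (by fun_prop) _ _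

lemma lam_eq (n : ℕ) : lam (w (1 / 72)) (w (1 / 36)) n * (1 + 210 / D n) = 1 / 2 + 213 / D n := by
  cases n with
  | zero => simp [lam, D]; norm_num
  | succ k =>
    have := D_pos (k + 1)
    simp only [lam, Nat.succ_ne_zero, if_false, Nat.add_sub_cancel, int_w]
    field_simp
    ring

lemma bound {β : ℝ → ℝ} (hβ : BoundedVariationOn β (Set.Icc 0 1)) {l : ℕ → ℝ}
    (h : ∀ n, HasRS (fun x => x ^ n) β (l n)) :
    ∃ V : ℝ, 0 ≤ V ∧ ∀ (N : ℕ) (c : ℕ → ℝ) (B : ℝ),
      (∀ x ∈ Set.Icc (0 : ℝ) 1, |∑ n ∈ range N, c n * x ^ n| ≤ B) →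
      |∑ n ∈ range N, c n * l n| ≤ V * B := by
  refine ⟨(eVariationOn β (Set.Icc 0 1)).toReal, ENNReal.toReal_nonneg, fun N c B hB => ?_⟩
  have hB0 : 0 ≤ B := (abs_nonneg _).trans (hB 0 (by simp))
  let S : ℕ → ℕ → ℝ := fun m n => ∑ i ∈ range (m + 1),
    ((i : ℝ) / (m + 1)) ^ n * (β (((i + 1 : ℕ) : ℝ) / (m + 1)) - β ((i : ℝ) / (m + 1)))
  have h1 : ∀ n, Filter.Tendsto (fun m => S m n) Filter.atTop (nhds (l n)) := by
    intro n
    rw [Metric.tendsto_atTop]
    intro ε hε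
    obtain ⟨δ, hδ, H⟩ := h n ε hε
    obtain ⟨M, hM⟩ := exists_nat_one_div_lt hδ
    refine ⟨M, fun m hm => ?_⟩
    have hm0 : (0 : ℝ) < m + 1 := by positivity
    refine H (m + 1) (fun i => (i : ℝ) / (m + 1)) (fun i => (i : ℝ) / (m + 1)) (by simp)
      (by push_cast; field_simp) (fun i _ => ⟨le_rfl, ?_, ?_⟩)
    · push_cast; gcongr; linarith
    · have : ((i + 1 : ℕ) : ℝ) / (m + 1) - i / (m + 1) = 1 / (m + 1) := by push_cast; ring
      rw [this]
      refine lt_of_le_of_lt ?_ hM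
      have : (M : ℝ) ≤ m := by exact_mod_cast hm
      gcongr
  have h2 : Filter.Tendsto (fun m => |∑ n ∈ range N, c n * S m n|) Filter.atTop
      (nhds |∑ n ∈ range N, c n * l n|) :=
    (tendsto_finset_sum _ fun n _ => (h1 n).const_mul _).abs
  refine le_of_tendsto' h2 fun m => ?_
  have hm0 : (0 : ℝ) < m + 1 := by positivity
  have e : ∑ n ∈ range N, c n * S m n = ∑ i ∈ range (m + 1),
      (∑ n ∈ range N, c n * ((i : ℝ) / (m + 1)) ^ n) *
        (β (((i + 1 : ℕ) : ℝ) / (m + 1)) - β ((i : ℝ) / (m + 1))) := by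
    simp only [S, mul_sum, sum_mul]
    rw [sum_comm]
    refine sum_congr rfl fun i _ => sum_congr rfl fun n _ => by ring
  have hmem : ∀ i ≤ m + 1, (i : ℝ) / (m + 1) ∈ Set.Icc (0 : ℝ) 1 := fun i hi =>
    ⟨by positivity, by rw [div_le_one hm0]; exact_mod_cast hi⟩
  have h3 := eVariationOn.sum_le_of_monotoneOn_Iic (f := β) (s := Set.Icc 0 1) (n := m + 1)
    (u := fun i => (i : ℝ) / (m + 1)) (fun i _ j _ hij => by
      have : (i : ℝ) ≤ j := by exact_mod_cast hij
      simp only; gcongr) hmem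
  have h4 := ENNReal.toReal_mono hβ h3
  rw [ENNReal.toReal_sum (fun _ _ => edist_ne_top _ _)] at h4
  simp only [← dist_edist, Real.dist_eq] at h4
  rw [e]
  refine (abs_sum_le_sum_abs _ _).trans ?_
  refine le_trans ?_ (mul_le_mul_of_nonneg_right h4 hB0)
  rw [sum_mul]
  refine sum_le_sum fun i hi => ?_
  rw [abs_mul, mul_comm]
  exact mul_le_mul_of_nonneg_left (hB _ (hmem i (by have := mem_range.1 hi; omega))) (abs_nonneg _)

noncomputable def A (g : ℝ → ℝ) (x : ℝ) : ℝ := ∫ t in (0 : ℝ)..1, (1 - t) ^ 2 / 2 * g (x * t)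

lemma A_poly (N : ℕ) (c : ℕ → ℝ) (x : ℝ) :
    A (fun y => ∑ n ∈ range N, c n * y ^ n) x = ∑ n ∈ range N, c n / D n * x ^ n := by
  unfold A
  simp only [mul_sum]
  rw [intervalIntegral.integral_finset_sum
    (fun _ _ => Continuous.intervalIntegrable (by fun_prop) _ _)]
  refine sum_congr rfl fun n _ => ?_
  have : ∀ t : ℝ, (1 - t) ^ 2 / 2 * (c n * (x * t) ^ n) =
      c n * x ^ n / 2 * t ^ n - c n * x ^ n * t ^ (n + 1) + c n * x ^ n / 2 * t ^ (n + 2) := by
    intro t; rw [mul_pow]; ring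
  simp only [this]
  rw [intervalIntegral.integral_add, intervalIntegral.integral_sub,
    intervalIntegral.integral_const_mul, intervalIntegral.integral_const_mul,
    intervalIntegral.integral_const_mul]
  · simp only [integral_pow, D]
    push_cast
    field_simp
    ring
  all_goals exact Continuous.intervalIntegrable (by fun_prop) _ _

lemma A_close {f g : ℝ → ℝ} (hf : Continuous f) (hg : Continuous g) {ε : ℝ}
    (h : ∀ x ∈ Set.Icc (0 : ℝ) 1, |f x - g x| ≤ ε) {x : ℝ} (hx : x ∈ Set.Icc (0 : ℝ) 1) :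
    |A f x - A g x| ≤ ε := by
  unfold A
  rw [← intervalIntegral.integral_sub (Continuous.intervalIntegrable (by fun_prop) _ _)
    (Continuous.intervalIntegrable (by fun_prop) _ _)]
  have := intervalIntegral.norm_integral_le_of_norm_le_const (a := 0) (b := 1) (C := ε)
    (f := fun t => (1 - t) ^ 2 / 2 * f (x * t) - (1 - t) ^ 2 / 2 * g (x * t)) (fun t ht => by
      rw [Set.uIoc_of_le zero_le_one] at ht
      have h1 := h (x * t) ⟨mul_nonneg hx.1 ht.1.le, mul_le_one₀ hx.2 ht.1.le ht.2⟩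
      rw [Real.norm_eq_abs, ← mul_sub, abs_mul, abs_of_nonneg (by positivity)]
      have h2 : (1 - t) ^ 2 / 2 ≤ 1 := by nlinarith [ht.1, ht.2]
      exact (mul_le_of_le_one_left (abs_nonneg _) h2).trans h1)
  simpa using this

noncomputable def s0 : ℂ := ⟨1, Real.sqrt 26⟩

noncomputable def f0 (x : ℝ) : ℝ := ((x : ℂ) ^ s0).re

lemma cont_pow : Continuous fun x : ℝ => (x : ℂ) ^ s0 :=
  Complex.continuous_ofReal_cpow_const (by simp [s0])

lemma s0_root : (s0 + 1) * (s0 + 2) * (s0 + 3) = -210 := by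
  have h : Real.sqrt 26 * Real.sqrt 26 = 26 := Real.mul_self_sqrt (by norm_num)
  apply Complex.ext
  · simp [s0]; nlinarith
  · simp [s0]
    have : √26 * √26 * √26 = 26 * √26 := by rw [h]
    nlinarith

lemma int_s0 : ∫ t in (0 : ℝ)..1, ((1 - t) ^ 2 / 2 : ℂ) * (t : ℂ) ^ s0 = -1 / 210 := by
  have hre : ∀ k : ℕ, 0 < (s0 + k).re := by
    intro k; simp only [s0, Complex.add_re, Complex.natCast_re]; positivity
  have hne : ∀ k : ℕ, s0 + k ≠ 0 := fun k h => by have := hre k; rw [h] at this; simp at this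
  have hc : ∀ k : ℕ, Continuous fun x : ℝ => (x : ℂ) ^ (s0 + k) := fun k =>
    Complex.continuous_ofReal_cpow_const (hre k)
  have hI : ∀ k : ℕ, ∫ t in (0 : ℝ)..1, (t : ℂ) ^ (s0 + k) = 1 / (s0 + k + 1) := by
    intro k
    rw [integral_cpow (Or.inl (by linarith [hre k]))]
    have : s0 + k + 1 ≠ 0 := by have := hne (k + 1); push_cast at this; rwa [add_assoc]
    simp [Complex.zero_cpow this]
  have e : ∀ t : ℝ, ((1 - t) ^ 2 / 2 : ℂ) * (t : ℂ) ^ s0 =
      1 / 2 * (t : ℂ) ^ (s0 + (0 : ℕ)) - (t : ℂ) ^ (s0 + (1 : ℕ)) + 1 / 2 * (t : ℂ) ^ (s0 + (2 : ℕ)) := by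
    intro t
    by_cases ht : (t : ℂ) = 0
    · have := hne 0
      rw [ht, Complex.zero_cpow (hne 0), Complex.zero_cpow (hne 1), Complex.zero_cpow (hne 2),
        Complex.zero_cpow (by simpa using this)]
      simp
    · simp only [Complex.cpow_add _ _ ht, Complex.cpow_natCast]
      ring
  simp only [e]
  rw [intervalIntegral.integral_add, intervalIntegral.integral_sub,
    intervalIntegral.integral_const_mul, intervalIntegral.integral_const_mul, hI, hI, hI]
  · have h1 := hne 1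
    have h2 := hne 2
    have h3 := hne 3
    have h4 := s0_root
    push_cast at *
    have e1 : s0 + 1 + 1 = s0 + 2 := by ring
    have e2 : s0 + 2 + 1 = s0 + 3 := by ring
    rw [add_zero, e1, e2]
    field_simp
    linear_combination 2 * h4
  all_goals exact Continuous.intervalIntegrable (by have := hc 0; have := hc 1; have := hc 2; fun_prop) _ _

lemma A_f0 {x : ℝ} (hx : 0 ≤ x) : A f0 x = -f0 x / 210 := by
  have h1 : A f0 x = (∫ t in (0 : ℝ)..1, (x : ℂ) ^ s0 * (((1 - t) ^ 2 / 2 : ℂ) * (t : ℂ) ^ s0)).re := by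
    have := cont_pow
    rw [← Complex.reCLM_apply, ← ContinuousLinearMap.intervalIntegral_comp_comm _
      (Continuous.intervalIntegrable (by fun_prop) _ _)]
    refine intervalIntegral.integral_congr fun t ht => ?_
    rw [Set.uIcc_of_le zero_le_one] at ht
    simp only [f0, Complex.reCLM_apply, Complex.ofReal_mul]
    rw [Complex.mul_cpow_ofReal_nonneg hx ht.1, ← Complex.re_ofReal_mul]
    congr 1
    push_cast
    ring
  rw [h1, intervalIntegral.integral_const_mul, int_s0]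
  have : (-1 / 210 : ℂ) = ((-1 / 210 : ℝ) : ℂ) := by push_cast; ring
  rw [this, Complex.re_mul_ofReal, f0]
  ring

/-- Weights in `Ω`, both monotone, with nonincreasing ratio, whose moment problem has no
solution that is nondecreasing or of bounded variation. -/
theorem result : ∃ ω₁ ω₂ : ℝ → ℝ, InOmega ω₁ ∧ InOmega ω₂ ∧
    AntitoneOn ω₁ (Set.Icc 0 1) ∧ AntitoneOn ω₂ (Set.Icc 0 1) ∧
    AntitoneOn (fun x => ω₁ x / ω₂ x) (Set.Icc 0 1) ∧
    ∀ β : ℝ → ℝ, (MonotoneOn β (Set.Icc 0 1) ∨ BoundedVariationOn β (Set.Icc 0 1)) →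
      ¬ ∀ n : ℕ, HasRS (fun x => x ^ n) β (lam ω₁ ω₂ n) := by
  refine ⟨w (1 / 72), w (1 / 36), w_omega (by norm_num) (by norm_num),
    w_omega (by norm_num) (by norm_num), w_anti (by norm_num), w_anti (by norm_num), ratio_anti,
    fun β hβ h => ?_⟩
  have hβ' : BoundedVariationOn β (Set.Icc 0 1) := by
    rcases hβ with h1 | h1
    · have := h1.eVariationOn_le (a := 0) (b := 1) (by simp) (by simp)
      rw [Set.inter_self] at this
      exact ne_top_of_le_ne_top ENNReal.ofReal_ne_top this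
    · exact h1
  obtain ⟨V, hV, H⟩ := bound hβ' h
  have hf : Continuous f0 := Complex.continuous_re.comp cont_pow
  set ε : ℝ := 1 / (211 * V + 214) / 100 with hε
  have hε0 : 0 < ε := by positivity
  obtain ⟨p, hp⟩ := exists_polynomial_near_of_continuousOn 0 1 f0 hf.continuousOn ε hε0
  simp only [Polynomial.eval_eq_sum_range] at hp
  set N := p.natDegree + 1
  have hA := fun x hx => A_close (f := fun y => ∑ n ∈ range N, p.coeff n * y ^ n) (by fun_prop) hf
    (fun x hx => (hp x hx).le) (x := x) hx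
  simp only [A_poly] at hA
  have h1 := H N (fun n => p.coeff n * (1 + 210 / D n)) (211 * ε) (fun x hx => by
    have e : ∑ n ∈ range N, p.coeff n * (1 + 210 / D n) * x ^ n =
        ∑ n ∈ range N, p.coeff n * x ^ n + 210 * ∑ n ∈ range N, p.coeff n / D n * x ^ n := by
      rw [mul_sum, ← sum_add_distrib]
      exact sum_congr rfl fun n _ => by ring
    have a1 := abs_lt.1 (hp x hx)
    have a2 := abs_le.1 (hA x hx)
    rw [A_f0 hx.1] at a2
    rw [e, abs_le]
    constructor <;> linarith)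
  have e : ∑ n ∈ range N, p.coeff n * (1 + 210 / D n) * lam (w (1 / 72)) (w (1 / 36)) n =
      1 / 2 * ∑ n ∈ range N, p.coeff n * (1 : ℝ) ^ n +
        213 * ∑ n ∈ range N, p.coeff n / D n * (1 : ℝ) ^ n := by
    rw [mul_sum, mul_sum, ← sum_add_distrib]
    refine sum_congr rfl fun n _ => ?_
    rw [mul_assoc, mul_comm (1 + 210 / D n), lam_eq]
    ring
  have a1 := abs_lt.1 (hp 1 (by simp))
  have a2 := abs_le.1 (hA 1 (by simp))
  have f1 : f0 1 = 1 := by simp [f0]
  rw [A_f0 zero_le_one, f1] at a2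
  rw [f1] at a1
  rw [e] at h1
  have a3 := abs_le.1 h1
  have : (211 * V + 214) * ε = 1 / 100 := by rw [hε]; field_simp
  nlinarith

end Pool.Agent.Results.MP_d888c7_an.NoBV
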